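import Pool.Agent.H.MP_ebc13b_lc.h46.FinF

/-!
Colouring (claw, co-diamond)-free graphs: either the graph has no edge or it has no four pairwise
nonadjacent vertices.
-/

namespace Pool.Agent.H.MP_ebc13b_lc.h61d

open Pool.Agent.H.MP_5be563_lc.PT Pool.Agent.H.MP_ebc13b_lc.h61 Pool.Agent.H.MP_ebc13b_lc.h46

/-- A (claw, co-diamond)-free graph with four pairwise nonadjacent vertices has no edge. -/
theorem edgeless_of {n : ℕ} {G : SimpleGraph (Fin n)}
    (h1 : ¬ (completeBipartiteGraph (Fin 1) (Fin 3)).IsIndContained G)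
    (h3 : ¬ coDiamond.IsIndContained G) (h2 : (⊥ : SimpleGraph (Fin 4)).IsIndContained G) :
    ∀ u v, ¬ G.Adj u v := by
  obtain ⟨φ⟩ := h2
  have hn : ∀ i j, ¬ G.Adj (φ i) (φ j) := fun i j h => by simpa using (φ.map_rel_iff).1 h
  have hne : ∀ i j, i ≠ j → φ i ≠ φ j := fun i j h h' => h (φ.injective h')
  -- no vertex has a neighbour among the four vertices
  have key : ∀ w i, ¬ G.Adj w (φ i) := by
    intro w i hw
    have hwj : ∀ j, w ≠ φ j := by
      rintro j rfl
      exact hn _ _ hw
    -- at most two neighbours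
    have h4 : ∀ j k l, j ≠ k → j ≠ l → k ≠ l → G.Adj w (φ j) → G.Adj w (φ k) →
        ¬ G.Adj w (φ l) := by
      intro j k l hjk hjl hkl ha hb hc
      exact h1 (claw_of ha hb hc (hn _ _) (hn _ _) (hn _ _) (hne _ _ hjk) (hne _ _ hjl)
        (hne _ _ hkl))
    have h5 : ∀ k l, i ≠ k → i ≠ l → k ≠ l → ¬ G.Adj w (φ k) → G.Adj w (φ l) := by
      intro k l hik hil hkl hb
      by_contra hc
      exact h3 (coDiamond_of hw hb hc (hn _ _) (hn _ _) (hn _ _) (hwj _) (hwj _)
        (hne _ _ hik) (hne _ _ hil) (hne _ _ hkl))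
    obtain ⟨j, k, l, hij, hik, hil, hjk, hjl, hkl⟩ : ∃ j k l : Fin 4, i ≠ j ∧ i ≠ k ∧ i ≠ l ∧
        j ≠ k ∧ j ≠ l ∧ k ≠ l := by
      have h6 : ∀ i : Fin 4, ∃ j k l : Fin 4, i ≠ j ∧ i ≠ k ∧ i ≠ l ∧ j ≠ k ∧ j ≠ l ∧ k ≠ l := by
        decide
      exact h6 i
    by_cases hj : G.Adj w (φ j)
    · have hk := h4 i j k hij hik hjk hw hj
      exact h4 i j l hij hil hjl hw hj (h5 k l hik hil hkl hk)
    · have hk := h5 j k hij hik hjk hj
      have hl := h5 j l hij hil hjl hj
      exact h4 i k l hik hil hkl hw hk hl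
  intro u v huv
  have hu : ∀ j, u ≠ φ j := by
    rintro j rfl
    exact key _ j huv.symm
  have hv : ∀ j, v ≠ φ j := by
    rintro j rfl
    exact key _ j huv
  exact h3 (coDiamond_of huv (key u 0) (key u 1) (key v 0) (key v 1) (hn 0 1) (hu _) (hu _) (hv _)
    (hv _) (hne _ _ (by decide)))

/-- Is the graph edgeless? -/
def noE (raw : List Bool) : Bool :=
  (List.range (pn raw)).all fun i => (List.range (pn raw)).all fun j => !(ent raw i j)

/-- the decision procedure -/
def dec4 (C : ℕ) (raw : List Bool) : Bool :=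
  bif noE raw then decide (pn raw = 0) || decide (1 ≤ pk raw) else dec3 C raw

@[fun_prop]
theorem Poly.noE {α : Type} [Enc α] {l : α → List Bool} (hl : Poly l) :
    Poly (fun a => noE (l a)) := by
  unfold h61d.noE
  fun_prop

@[fun_prop]
theorem Poly.dec4 {C : ℕ} {α : Type} [Enc α] {l : α → List Bool} (hl : Poly l) :
    Poly (fun a => dec4 C (l a)) := by
  unfold h61d.dec4
  exact Poly.cond (Poly.noE hl) (by fun_prop) (Poly.dec3 hl)

theorem noE_iff (x : Inst) : noE x.encode = true ↔ ∀ u v, ¬ x.G.Adj u v := by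
  unfold noE
  rw [pn_encode]
  simp only [List.all_eq_true, List.mem_range, Bool.not_eq_true']
  constructor
  · intro h u v huv
    have h1 := h u.1 u.2 v.1 v.2
    rw [← Bool.not_eq_true, ent_encode x u.2 v.2] at h1
    exact h1 ⟨u.2, v.2, huv⟩
  · intro h i hi j hj
    rw [← Bool.not_eq_true, ent_encode x hi hj]
    rintro ⟨_, _, h1⟩
    exact h _ _ h1

theorem dec4_iff {C : ℕ} (hMain : Main C) (x : Inst)
    (h1 : ¬ (completeBipartiteGraph (Fin 1) (Fin 3)).IsIndContained x.G)
    (h3 : ¬ coDiamond.IsIndContained x.G) :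
    dec4 C x.encode = true ↔ x.G.Colorable x.k := by
  unfold dec4
  by_cases h : noE x.encode = true
  · rw [h, cond_true, pn_encode, pk_encode]
    rw [noE_iff] at h
    simp only [Bool.or_eq_true, decide_eq_true_eq]
    constructor
    · rintro (h0 | h0)
      · exact ⟨SimpleGraph.Coloring.mk (fun v => absurd v.2 (by omega))
          (fun {u v} huv => absurd huv (h u v))⟩
      · have h5 : 1 ≤ x.k := le_trans h0 (min_le_right _ _)
        have h6 : x.G.Colorable 1 :=
          ⟨SimpleGraph.Coloring.mk (fun _ => (0 : Fin 1)) (fun {u v} huv => absurd huv (h u v))⟩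
        exact h6.mono h5
    · intro h0
      by_cases h5 : x.n = 0
      · exact Or.inl h5
      · right
        have h6 : x.k ≠ 0 := by
          intro h7
          rw [h7] at h0
          obtain ⟨c⟩ := h0
          exact (c ⟨0, Nat.pos_of_ne_zero h5⟩).elim0
        omega
  · rw [Bool.not_eq_true] at h
    rw [h, cond_false]
    refine dec3_iff hMain x (prismatic_of x h1 ?_ h3)
    intro h2
    rw [← Bool.not_eq_true] at h
    exact h ((noE_iff x).2 (edgeless_of h1 h3 h2))

/-- Colouring is in P on (claw, co-diamond)-free graphs. -/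
theorem final2 {C : ℕ} (hMain : Main C) :
    ∃ f : Inst → Bool,
      Nonempty (Turing.TM2ComputableInPolyTime Inst.encode Computability.encodeBool f) ∧
      ∀ x : Inst,
        ¬ (completeBipartiteGraph (Fin 1) (Fin 3)).IsIndContained x.G →
        ¬ coDiamond.IsIndContained x.G →
        (f x = true ↔ x.G.Colorable x.k) := by
  have hP : Poly (fun s : List Bool => dec4 C s) := by fun_prop
  obtain ⟨M⟩ := Poly.tm2_raw_bool hP
  refine ⟨fun x => dec4 C x.encode, ⟨?_⟩, ?_⟩
  · exact
      { tm := M.tm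
        inputAlphabet := M.inputAlphabet
        outputAlphabet := M.outputAlphabet
        time := M.time
        outputsFun := fun x => M.outputsFun x.encode }
  · intro x h1 h3
    exact dec4_iff hMain x h1 h3

end Pool.Agent.H.MP_ebc13b_lc.h61d
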